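import Mathlib

/-! Statements for the project PT (MP_d085fd_co, S11569): a finite family of convex sets in the plane, every k0
members of which can be pierced by two points, can be pierced by three points. -/

set_option autoImplicit false

namespace Pool.Agent.W323.PT

/-- points of the plane -/
abbrev Pt := ℝ × ℝ

/-- orientation determinant of three points (positive = counterclockwise) -/
def o (a b c : Pt) : ℝ := (b.1 - a.1) * (c.2 - a.2) - (b.2 - a.2) * (c.1 - a.1)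

/-- crossing point of the lines `ab` and `cd`; `X a a a a = a` -/
noncomputable def X (a b c d : Pt) : Pt := a + (o c d a / (o c d a - o c d b)) • (b - a)

/-- hexagon determinant: for a convex hexagon it is positive iff the crossing point of the diagonals `14` and `36`
lies on the side of `t3`, `t4` of the diagonal `25` -/
def D (t1 t2 t3 t4 t5 t6 : Pt) : ℝ := o t1 t4 t6 * o t2 t3 t5 - o t1 t3 t4 * o t2 t5 t6

/-- the directions `r1, r2, r3, r4` seen from `c` are in counterclockwise order inside a half turn -/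
def Fan (c r1 r2 r3 r4 : Pt) : Prop :=
  0 < o c r1 r2 ∧ 0 < o c r1 r3 ∧ 0 < o c r1 r4 ∧ 0 < o c r2 r3 ∧ 0 < o c r2 r4 ∧ 0 < o c r3 r4

/-- `z` lies in the cone opposite to the cone of directions between `r2` and `r3` (seen from `c`) -/
def Opp (c r2 r3 z : Pt) : Prop := 0 < o c z r2 ∧ 0 < o c r3 z

/-- `x` lies in the cone of directions between `r` and `s` (seen from `c`) -/
def Btw (c r s x : Pt) : Prop := 0 < o c r x ∧ 0 < o c x s

/-- the good pattern: `x` between `r1, r2`, `y` between `r3, r4`, both `z` and `w` opposite to `r2, r3`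
(then `c` lies in the triangles `x y z` and `x y w`) -/
def Pat (c r1 r2 r3 r4 x y z w : Pt) : Prop :=
  Fan c r1 r2 r3 r4 ∧ Btw c r1 r2 x ∧ Btw c r3 r4 y ∧ Opp c r2 r3 z ∧ Opp c r2 r3 w

/-- a point of the configuration (letter, index) -/
def pt (P : Bool → ℕ → Pt) (u : Bool × ℕ) : Pt := P u.1 u.2

/-- a good pattern inside the first `m` pairs `(P false i, P true i)` -/
def PatN (m : ℕ) (P : Bool → ℕ → Pt) : Prop :=
  ∃ (θ : Fin 8 → Bool × ℕ) (x y : Bool × ℕ) (z : ℕ),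
    (∀ l, (θ l).2 < m) ∧ x.2 < m ∧ y.2 < m ∧ z < m ∧ x.2 ≠ y.2 ∧ x.2 ≠ z ∧ y.2 ≠ z ∧
    (∀ l, (θ l).2 ≠ x.2 ∧ (θ l).2 ≠ y.2 ∧ (θ l).2 ≠ z) ∧
    Pat (X (pt P (θ 0)) (pt P (θ 1)) (pt P (θ 2)) (pt P (θ 3))) (pt P (θ 4)) (pt P (θ 5)) (pt P (θ 6)) (pt P (θ 7))
      (pt P x) (pt P y) (P false z) (P true z)

/-- general position of the first `m` pairs (only triples with distinct indices) -/
def GP (m : ℕ) (P : Bool → ℕ → Pt) : Prop :=
  ∀ i j k, i < j → j < k → k < m → ∀ b1 b2 b3 : Bool, o (P b1 i) (P b2 j) (P b3 k) ≠ 0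

/-- all triples with increasing indices have the orientation given by the table `σ` -/
def Hom (m : ℕ) (P : Bool → ℕ → Pt) (σ : Bool → Bool → Bool → Bool) : Prop :=
  ∀ i j k, i < j → j < k → k < m → ∀ b1 b2 b3 : Bool,
    (σ b1 b2 b3 = true → 0 < o (P b1 i) (P b2 j) (P b3 k)) ∧
    (σ b1 b2 b3 = false → o (P b1 i) (P b2 j) (P b3 k) < 0)

/-- block tables: `a` = orientation of the chain of points `P false`, `b` = side of the points `P true` with respect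
to the chords of the chain `P false`, `c` = side of the points `P false` with respect to the chords of the chain
`P true`, `d` = orientation of the chain `P true` -/
def blk (a b c d : Bool) : Bool → Bool → Bool → Bool
  | false, false, false => a
  | true, false, false => b
  | false, true, false => !b
  | false, false, true => b
  | false, true, true => c
  | true, false, true => !c
  | true, true, false => c
  | true, true, true => d

/-! ### finite weights -/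

open Classical in
/-- total weight of the indices with property `p` -/
noncomputable def mass {ι : Type} [Fintype ι] (w : ι → ℝ) (p : ι → Prop) : ℝ := ∑ i, if p i then w i else 0

/-- the family can be pierced by three points -/
def Pierce3 (F : Finset (Set Pt)) : Prop := ∃ S : Finset Pt, S.card ≤ 3 ∧ ∀ K ∈ F, ∃ p ∈ S, p ∈ K

/-- lexicographic minimum -/
def IsLexMin (S : Set Pt) (v : Pt) : Prop := v ∈ S ∧ ∀ u ∈ S, v.1 < u.1 ∨ (v.1 = u.1 ∧ v.2 ≤ u.2)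

/-! ### part 1: geometry of the pattern, Helly -/

/-- the pattern surrounds `c` -/
def S_Tri : Prop := ∀ c r1 r2 r3 r4 x y z : Pt, Fan c r1 r2 r3 r4 → Btw c r1 r2 x → Btw c r3 r4 y → Opp c r2 r3 z →
  c ∈ convexHull ℝ ({x, y, z} : Set Pt)

/-- convex sets in the plane, finitely many, every three (not necessarily distinct) members have a common point -/
def S_Helly : Prop := ∀ F : Finset (Set Pt), (∀ K ∈ F, Convex ℝ K) →
  (∀ A ∈ F, ∀ B ∈ F, ∀ C ∈ F, ∃ p, p ∈ A ∧ p ∈ B ∧ p ∈ C) → ∃ p, ∀ K ∈ F, p ∈ K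

/-- convex sets which each miss less than a third of a finite weight have a common point -/
def S_Center : Prop := ∀ (ι : Type) [Fintype ι] (w : ι → ℝ) (q : ι → Pt) (F : Finset (Set Pt)) (p : ι → Prop) (δ : ℝ),
  (∀ i, 0 ≤ w i) → (∀ K ∈ F, Convex ℝ K) → 3 * δ ≤ mass w p → (∀ K ∈ F, mass w (fun i => p i ∧ q i ∉ K) < δ) →
  ∃ c, ∀ K ∈ F, c ∈ K

/-- Lemma B: three points from a pattern of positive weight -/
def S_Succ : Prop := ∀ (ι : Type) [Fintype ι] (w : ι → ℝ) (P : Bool → ι → Pt) (F : Finset (Set Pt)) (δ : ℝ),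
  0 < δ → (∀ i, 0 ≤ w i) → (∀ K ∈ F, Convex ℝ K) →
  (∀ K ∈ F, mass w (fun i => P false i ∉ K ∧ P true i ∉ K) < δ) →
  ∀ (c r1 r2 r3 r4 : Pt) (bx by' : Bool), Fan c r1 r2 r3 r4 →
    3 * δ ≤ mass w (fun i => Btw c r1 r2 (P bx i)) →
    3 * δ ≤ mass w (fun i => Btw c r3 r4 (P by' i)) →
    δ ≤ mass w (fun i => Opp c r2 r3 (P false i) ∧ Opp c r2 r3 (P true i)) → Pierce3 F

/-- a line that carries a positive weight of points: three points -/
def S_Line : Prop := ∀ (ι : Type) [Fintype ι] (w : ι → ℝ) (P : Bool → ι → Pt) (F : Finset (Set Pt)) (δ : ℝ),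
  0 < δ → (∀ i, 0 ≤ w i) → (∀ K ∈ F, Convex ℝ K) →
  (∀ K ∈ F, mass w (fun i => P false i ∉ K ∧ P true i ∉ K) < δ) →
  ∀ (a b : Pt) (β : Bool), a ≠ b → 6 * δ ≤ mass w (fun i => o a b (P β i) = 0) → Pierce3 F

/-! ### part 2: sampling -/

/-- one pattern position: the weight of the samples with the pattern at a given position is at most `β` -/
def S_One : Prop := ∀ (m : ℕ) (β : ℝ), 0 ≤ β → ∀ (ι : Type) [Fintype ι] (w : ι → ℝ) (P : Bool → ι → Pt),
  (∀ i, 0 ≤ w i) → ∑ i, w i = 1 →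
  (∀ (c r1 r2 r3 r4 : Pt) (bx by' : Bool), Fan c r1 r2 r3 r4 →
    mass w (fun i => Btw c r1 r2 (P bx i)) ≤ β ∨ mass w (fun i => Btw c r3 r4 (P by' i)) ≤ β ∨
    mass w (fun i => Opp c r2 r3 (P false i) ∧ Opp c r2 r3 (P true i)) ≤ β) →
  ∀ (θ : Fin 8 → Bool × Fin m) (x y : Bool × Fin m) (z : Fin m), x.2 ≠ y.2 → x.2 ≠ z → y.2 ≠ z →
    (∀ l, (θ l).2 ≠ x.2 ∧ (θ l).2 ≠ y.2 ∧ (θ l).2 ≠ z) →
    mass (fun f : Fin m → ι => ∏ t, w (f t)) (fun f =>
      Pat (X (P (θ 0).1 (f (θ 0).2)) (P (θ 1).1 (f (θ 1).2)) (P (θ 2).1 (f (θ 2).2)) (P (θ 3).1 (f (θ 3).2)))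
        (P (θ 4).1 (f (θ 4).2)) (P (θ 5).1 (f (θ 5).2)) (P (θ 6).1 (f (θ 6).2)) (P (θ 7).1 (f (θ 7).2))
        (P x.1 (f x.2)) (P y.1 (f y.2)) (P false (f z)) (P true (f z))) ≤ β

/-- collinear triples have small weight -/
def S_Two : Prop := ∀ (m : ℕ) (β : ℝ), 0 ≤ β → ∀ (ι : Type) [Fintype ι] (w : ι → ℝ) (P : Bool → ι → Pt),
  (∀ i, 0 ≤ w i) → ∑ i, w i = 1 →
  (∀ (a b : Pt) (e : Bool), a ≠ b → mass w (fun i => o a b (P e i) = 0) ≤ β) →
  ∀ (i j k : Fin m) (b1 b2 b3 : Bool), i ≠ j → i ≠ k → j ≠ k →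
    mass (fun f : Fin m → ι => ∏ t, w (f t)) (fun f => o (P b1 (f i)) (P b2 (f j)) (P b3 (f k)) = 0) ≤ 2 * β

/-- sampling: if nothing has positive weight there is a sample in general position without a pattern -/
def S_Samp : Prop := ∀ m : ℕ, ∃ β : ℝ, 0 < β ∧ ∀ (ι : Type) [Fintype ι] (w : ι → ℝ) (P : Bool → ι → Pt),
  (∀ i, 0 ≤ w i) → ∑ i, w i = 1 →
  (∀ (a b : Pt) (e : Bool), a ≠ b → mass w (fun i => o a b (P e i) = 0) ≤ β) →
  (∀ (c r1 r2 r3 r4 : Pt) (bx by' : Bool), Fan c r1 r2 r3 r4 →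
    mass w (fun i => Btw c r1 r2 (P bx i)) ≤ β ∨ mass w (fun i => Btw c r3 r4 (P by' i)) ≤ β ∨
    mass w (fun i => Opp c r2 r3 (P false i) ∧ Opp c r2 r3 (P true i)) ≤ β) →
  ∃ f : ℕ → ι, GP m (fun b i => P b (f i)) ∧ ¬ PatN m (fun b i => P b (f i))

/-- the combinatorial theorem -/
def S_CC : Prop := ∃ m : ℕ, ∀ P : Bool → ℕ → Pt, GP m P → PatN m P

/-- the main theorem on weights -/
def S_Main : Prop := ∃ δ : ℝ, 0 < δ ∧ ∀ (ι : Type) [Fintype ι] (w : ι → ℝ) (P : Bool → ι → Pt) (F : Finset (Set Pt)),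
  (∀ i, 0 ≤ w i) → ∑ i, w i = 1 → (∀ K ∈ F, Convex ℝ K) →
  (∀ K ∈ F, mass w (fun i => P false i ∉ K ∧ P true i ∉ K) < δ) → Pierce3 F

/-! ### part 3: from local piercing to weights -/

/-- every at most `k` members can be pierced by two points -/
def Loc (k : ℕ) (F : Finset (Set Pt)) : Prop :=
  ∀ G ⊆ F, G.card ≤ k → ∃ u v : Pt, ∀ C ∈ G, u ∈ C ∨ v ∈ C

/-- reduction to compact sets -/
def S_Cpt : Prop := ∀ (k : ℕ) (F : Finset (Set Pt)), 1 ≤ k → (∀ K ∈ F, Convex ℝ K) → Loc k F →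
  ∃ F' : Finset (Set Pt), (∀ K ∈ F', Convex ℝ K ∧ IsCompact K ∧ K.Nonempty) ∧ Loc k F' ∧
    ∀ K ∈ F, ∃ K' ∈ F', K' ⊆ K

/-- lexicographic minima exist -/
def S_Lex : Prop := ∀ S : Set Pt, IsCompact S → S.Nonempty → ∃ v, IsLexMin S v

/-- the lexicographic minimum of an intersection is determined by two of the sets -/
def S_Basis : Prop := ∀ (n : ℕ) (C : Fin n → Set Pt), 0 < n → (∀ i, Convex ℝ (C i) ∧ IsCompact (C i)) →
  (∃ u, ∀ i, u ∈ C i) → ∃ i j, ∀ v, IsLexMin (C i ∩ C j) v → ∀ k, v ∈ C k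

/-- for every weight on the members some candidate pair misses less than `δ` -/
def S_Mu : Prop := ∀ δ : ℝ, 0 < δ → ∃ k : ℕ, 1 ≤ k ∧ ∀ (N : ℕ) (C : Fin N → Set Pt),
  (∀ i, Convex ℝ (C i) ∧ IsCompact (C i) ∧ (C i).Nonempty) →
  (∀ s : Finset (Fin N), s.card ≤ k → ∃ u v : Pt, ∀ i ∈ s, u ∈ C i ∨ v ∈ C i) →
  ∀ cand : Fin N → Fin N → Pt, (∀ i j, (C i ∩ C j).Nonempty → IsLexMin (C i ∩ C j) (cand i j)) →
  ∀ μ : Fin N → ℝ, (∀ i, 0 ≤ μ i) → ∑ i, μ i = 1 →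
  ∃ i j k l, mass μ (fun t => cand i j ∉ C t ∧ cand k l ∉ C t) < δ

/-- finite minimax -/
def S_Minimax : Prop := ∀ (N : ℕ) (J : Type) [Fintype J] (A : Fin N → J → ℝ) (δ : ℝ), 0 < N →
  (∀ μ : Fin N → ℝ, (∀ i, 0 ≤ μ i) → ∑ i, μ i = 1 → ∃ j, ∑ t, μ t * A t j < δ) →
  ∃ w : J → ℝ, (∀ j, 0 ≤ w j) ∧ ∑ j, w j = 1 ∧ ∀ t, ∑ j, w j * A t j ≤ δ

/-- from local piercing to a weight on pairs of points -/
def S_Red : Prop := ∀ δ : ℝ, 0 < δ → ∃ k : ℕ, 1 ≤ k ∧ ∀ F : Finset (Set Pt), F.Nonempty → (∀ K ∈ F, Convex ℝ K) →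
  Loc k F → ∃ F' : Finset (Set Pt), (∀ K ∈ F', Convex ℝ K) ∧ (∀ K ∈ F, ∃ K' ∈ F', K' ⊆ K) ∧
  ∃ (ι : Type) (_ : Fintype ι) (w : ι → ℝ) (P : Bool → ι → Pt), (∀ i, 0 ≤ w i) ∧ ∑ i, w i = 1 ∧
    ∀ K ∈ F', mass w (fun i => P false i ∉ K ∧ P true i ∉ K) < δ

/-! ### part 4: combinatorics -/

/-- Ramsey's theorem for triples -/
def S_Ram : Prop := ∀ (κ : Type) [Finite κ] (m : ℕ), ∃ M : ℕ, ∀ χ : ℕ → ℕ → ℕ → κ, ∃ g : ℕ → ℕ,
  (∀ i j, i < j → j < m → g i < g j) ∧ (∀ i, i < m → g i < M) ∧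
  ∃ col : κ, ∀ i j k, i < j → j < k → k < m → χ (g i) (g j) (g k) = col

/-- reflection -/
def S_Refl : Prop := ∀ (m : ℕ) (P : Bool → ℕ → Pt), PatN m (fun b i => ((P b i).1, -(P b i).2)) → PatN m P

/-- exchange of the two letters -/
def S_Swap : Prop := ∀ (m : ℕ) (P : Bool → ℕ → Pt), PatN m (fun b i => P (!b) i) → PatN m P

/-- monotonicity in `m` and passing to subsequences -/
def S_Sub : Prop := ∀ (m M : ℕ) (P : Bool → ℕ → Pt) (g : ℕ → ℕ), (∀ i j, i < j → j < m → g i < g j) →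
  (∀ i, i < m → g i < M) → PatN m (fun b i => P b (g i)) → PatN M P

/-- classification of the homogeneous sign tables -/
def S_Class : Prop := ∀ (P : Bool → ℕ → Pt) (σ : Bool → Bool → Bool → Bool), Hom 12 P σ →
  PatN 12 P ∨ (∃ a, ∀ b1 b2 b3, σ b1 b2 b3 = a) ∨ ∃ a b c d, σ = blk a b c d

/-- the hexagon pattern -/
def S_Hex : Prop := ∀ t1 t2 r1 x r2 t3 t4 r3 y r4 t5 t6 z w : Pt,
  (∀ L : Fin 13 → Pt, (L = ![t1, t2, r1, x, r2, t3, t4, r3, y, r4, t5, t6, z] ∨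
      L = ![t1, t2, r1, x, r2, t3, t4, r3, y, r4, t5, t6, w]) →
    ∀ i j k, i < j → j < k → 0 < o (L i) (L j) (L k)) →
  D t1 t2 t3 t4 t5 t6 ≤ 0 → Pat (X t1 t4 t3 t6) r1 r2 r3 r4 x y z w

/-- all orientations positive -/
def S_All : Prop := ∀ P : Bool → ℕ → Pt, Hom 20 P (fun _ _ _ => true) → PatN 20 P

/-- nested pairs in convex position -/
def S_Nest : Prop := ∀ P : Bool → ℕ → Pt, Hom 20 P (blk true true false false) → PatN 20 P

/-- a convex chain `Z` and points `Y` on the outer side of all its chords -/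
def S_Q4 : Prop := ∀ Z Y : ℕ → Pt, (∀ i j k, i < j → j < k → k < 19 → 0 < o (Z i) (Z j) (Z k)) →
  (∀ i j k, i < j → j < 19 → k < 19 → k ≠ i → k ≠ j → o (Y k) (Z i) (Z j) < 0) →
  PatN 19 (fun b i => if b then Y i else Z i)

/-- crossing pairs in convex position -/
def S_Cross : Prop := ∀ P : Bool → ℕ → Pt, Hom 96 P (blk true true true true) → PatN 96 P

/-- all block tables -/
def S_Blk : Prop := ∀ (P : Bool → ℕ → Pt) (a b c d : Bool), Hom 96 P (blk a b c d) → PatN 96 P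

/-! ### part 5: the convex crossing case -/

/-- the circular sequence of 96 points: index `u` mod 96, first half the points `P false (2 (u mod 48))`, second half
the points `P true (2 (u mod 48) + 1)` -/
def TT (P : Bool → ℕ → Pt) (u : ℤ) : Pt :=
  if u % 96 < 48 then P false (2 * (u % 48).toNat) else P true (2 * (u % 48).toNat + 1)

/-- they are in convex position -/
def S_Conv : Prop := ∀ P : Bool → ℕ → Pt, Hom 96 P (blk true true true true) →
  ∀ i j k : ℤ, i < j → j < k → k < i + 96 → 0 < o (TT P i) (TT P j) (TT P k)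

/-- all hexagons in half windows are positive or there is a pattern -/
def S_HexDir : Prop := ∀ P : Bool → ℕ → Pt, Hom 96 P (blk true true true true) →
  ∀ t1 t2 t3 t4 t5 t6 : ℤ, t1 < t2 → t2 < t3 → t3 < t4 → t4 < t5 → t5 < t6 → t6 ≤ t1 + 11 →
  PatN 96 P ∨ 0 < D (TT P (4 * t1)) (TT P (4 * t2)) (TT P (4 * t3)) (TT P (4 * t4)) (TT P (4 * t5)) (TT P (4 * t6))

/-- circular sequences of 24 points in convex position -/
def Cyc (T : ℤ → Pt) : Prop := (∀ i, T (i + 24) = T i) ∧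
  ∀ i j k : ℤ, i < j → j < k → k < i + 24 → 0 < o (T i) (T j) (T k)

/-- all hexagons in half windows are positive -/
def HPos (T : ℤ → Pt) : Prop := ∀ t1 t2 t3 t4 t5 t6 : ℤ, t1 < t2 → t2 < t3 → t3 < t4 → t4 < t5 → t5 < t6 →
  t6 ≤ t1 + 11 → 0 < D (T t1) (T t2) (T t3) (T t4) (T t5) (T t6)

/-- transitivity of the order of crossings on a chord (first form) -/
def S_Der : Prop := ∀ T : ℤ → Pt, Cyc T → HPos T → ∀ t1 t2 t3 t4 t5 t6 : ℤ, t1 < t2 → t2 + 1 < t3 → t3 < t4 →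
  t4 < t5 → t5 + 1 < t6 → t5 + 1 ≤ t1 + 11 → t6 ≤ t2 + 11 → 0 < D (T t1) (T t2) (T t3) (T t4) (T t5) (T t6)

/-- transitivity of the order of crossings on a chord (second form) -/
def S_Der' : Prop := ∀ T : ℤ → Pt, Cyc T → HPos T → ∀ t1 t2 t3 t4 t5 t6 : ℤ, t1 + 1 < t2 → t2 < t3 → t3 < t4 →
  t4 + 1 < t5 → t5 < t6 → t6 ≤ t2 - 1 + 11 → t5 ≤ t1 + 11 → 0 < D (T t1) (T t2) (T t3) (T t4) (T t5) (T t6)

/-- class function: sum of the logarithms of the areas of all triangles with gaps `s, t` (and mirror images) -/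
noncomputable def CL (T : ℤ → Pt) (s t : ℤ) : ℝ :=
  ∑ r ∈ Finset.range 24, (Real.log (o (T r) (T (r + s)) (T (r + s + t))) + Real.log (o (T r) (T (r + t)) (T (r + t + s))))

/-- positivity of a hexagon class -/
def HCl (T : ℤ → Pt) (g1 g2 g3 g4 g5 : ℤ) : Prop := ∀ r : ℤ,
  0 < D (T r) (T (r + g1)) (T (r + g1 + g2)) (T (r + g1 + g2 + g3)) (T (r + g1 + g2 + g3 + g4)) (T (r + g1 + g2 + g3 + g4 + g5)) ∧
  0 < D (T r) (T (r + g5)) (T (r + g5 + g4)) (T (r + g5 + g4 + g3)) (T (r + g5 + g4 + g3 + g2)) (T (r + g5 + g4 + g3 + g2 + g1))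

/-- symmetries of the class function -/
def S_CLsym : Prop := ∀ T : ℤ → Pt, Cyc T → ∀ s t : ℤ, 0 < s → 0 < t → s + t < 24 →
  CL T s t = CL T t s ∧ CL T s t = CL T t (24 - s - t)

/-- the three averaged hexagon inequalities -/
def S_CLhex : Prop := ∀ T : ℤ → Pt, Cyc T → ∀ g1 g2 g3 g4 g5 : ℤ, 0 < g1 → 0 < g2 → 0 < g3 → 0 < g4 → 0 < g5 →
  g1 + g2 + g3 + g4 + g5 < 24 → HCl T g1 g2 g3 g4 g5 →
  CL T (g1 + g2) g3 + CL T (g2 + g3 + g4) g5 < CL T (g1 + g2 + g3) (g4 + g5) + CL T g2 (g3 + g4) ∧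
  CL T g1 (g2 + g3) + CL T (g3 + g4) g5 < CL T (g1 + g2 + g3) g4 + CL T g2 (g3 + g4 + g5) ∧
  CL T g1 (g2 + g3 + g4) + CL T g3 (g4 + g5) < CL T (g1 + g2) (g3 + g4 + g5) + CL T (g2 + g3) g4

/-- the two averaged Ptolemy inequalities (apex 0, other points `b < c < d < e`) -/
def S_CLpto : Prop := ∀ T : ℤ → Pt, Cyc T → ∀ b c d e : ℤ, 0 < b → b < c → c < d → d < e → e < 24 →
  CL T b (c - b) + CL T d (e - d) < CL T b (d - b) + CL T c (e - c) ∧
  CL T b (e - b) + CL T c (d - c) < CL T b (d - b) + CL T c (e - c)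

/-- the linear programme is infeasible -/
def S_LP : Prop := ∀ T : ℤ → Pt, Cyc T → HPos T → False

/-! ### the final statement in `ℝ × ℝ` -/

def S_Fin : Prop := ∃ k : ℕ, ∀ F : Finset (Set Pt), (∀ C ∈ F, Convex ℝ C) → Loc k F → Pierce3 F

end Pool.Agent.W323.PT
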