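import Pool.Agent.W323.PT.Stm

set_option autoImplicit false

namespace Pool.Agent.W323.PT

theorem swap : S_Swap := by
  intro m P h
  obtain ⟨θ, x, y, z, h1, h2, h3, h4, h5, h6, h7, h8, hF, hx, hy, hz, hw⟩ := h
  exact ⟨fun l => (!(θ l).1, (θ l).2), (!x.1, x.2), (!y.1, y.2), z, h1, h2, h3, h4, h5, h6, h7, h8, hF, hx, hy,
    hw, hz⟩

theorem sub : S_Sub := by
  intro m M P g hg hM h
  have inj : ∀ i j, i < m → j < m → i ≠ j → g i ≠ g j := by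
    intro i j hi hj hij
    rcases lt_or_gt_of_ne hij with h | h
    · exact (hg i j h hj).ne
    · exact (hg j i h hi).ne'
  obtain ⟨θ, x, y, z, h1, h2, h3, h4, h5, h6, h7, h8, hF, hx, hy, hz, hw⟩ := h
  exact ⟨fun l => ((θ l).1, g (θ l).2), (x.1, g x.2), (y.1, g y.2), g z, fun l => hM _ (h1 l), hM _ h2, hM _ h3,
    hM _ h4, inj _ _ h2 h3 h5, inj _ _ h2 h4 h6, inj _ _ h3 h4 h7,
    fun l => ⟨inj _ _ (h1 l) h2 (h8 l).1, inj _ _ (h1 l) h3 (h8 l).2.1, inj _ _ (h1 l) h4 (h8 l).2.2⟩,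
    hF, hx, hy, hz, hw⟩

end Pool.Agent.W323.PT
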