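import Pool.Agent.W323.PT.Stm

/-! Definitions for the classification part (S_Class) of project PT. -/

set_option autoImplicit false

namespace Pool.Agent.W323.PT

/-- orientation sign (true = ccw) of three points with distinct indices, read from the table -/
def sg (σ : Bool → Bool → Bool → Bool) (u v w : Bool × ℕ) : Bool :=
  if u.2 < v.2 then
    if v.2 < w.2 then σ u.1 v.1 w.1
    else if u.2 < w.2 then !(σ u.1 w.1 v.1)
    else σ w.1 u.1 v.1
  else
    if u.2 < w.2 then !(σ v.1 u.1 w.1)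
    else if v.2 < w.2 then σ v.1 w.1 u.1
    else !(σ w.1 v.1 u.1)

/-- soundness of `sg` -/
def S_sg : Prop := ∀ (P : Bool → ℕ → Pt) (σ : Bool → Bool → Bool → Bool), Hom 12 P σ →
  ∀ u v w : Bool × ℕ, u.2 < 12 → v.2 < 12 → w.2 < 12 → u.2 ≠ v.2 → u.2 ≠ w.2 → v.2 ≠ w.2 →
  (sg σ u v w = true → 0 < o (pt P u) (pt P v) (pt P w)) ∧ (sg σ u v w = false → o (pt P u) (pt P v) (pt P w) < 0)

/-- four points: the signs of `bcd, -acd, abd, -abc` are not all equal -/
def ok4 (σ : Bool → Bool → Bool → Bool) (b0 b1 b2 b3 : Bool) : Bool :=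
  let s1 := sg σ (b1, 1) (b2, 2) (b3, 3)
  let s2 := !(sg σ (b0, 0) (b2, 2) (b3, 3))
  let s3 := sg σ (b0, 0) (b1, 1) (b3, 3)
  let s4 := !(sg σ (b0, 0) (b1, 1) (b2, 2))
  !((s1 && s2 && s3 && s4) || (!s1 && !s2 && !s3 && !s4))

/-- five points, apex `a`: the signs of `abc*ade, -abd*ace, abe*acd` are not all equal -/
def gp5 (σ : Bool → Bool → Bool → Bool) (a b c d e : Bool × ℕ) : Bool :=
  let t1 := (sg σ a b c == sg σ a d e)
  let t2 := !(sg σ a b d == sg σ a c e)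
  let t3 := (sg σ a b e == sg σ a c d)
  !((t1 && t2 && t3) || (!t1 && !t2 && !t3))

/-- all apex positions -/
def ok5 (σ : Bool → Bool → Bool → Bool) (b0 b1 b2 b3 b4 : Bool) : Bool :=
  gp5 σ (b0, 0) (b1, 1) (b2, 2) (b3, 3) (b4, 4) && gp5 σ (b1, 1) (b0, 0) (b2, 2) (b3, 3) (b4, 4) &&
  gp5 σ (b2, 2) (b0, 0) (b1, 1) (b3, 3) (b4, 4) && gp5 σ (b3, 3) (b0, 0) (b1, 1) (b2, 2) (b4, 4) &&
  gp5 σ (b4, 4) (b0, 0) (b1, 1) (b2, 2) (b3, 3)

/-- the sign conditions hold for real points -/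
def S_ok : Prop := ∀ (P : Bool → ℕ → Pt) (σ : Bool → Bool → Bool → Bool), Hom 12 P σ →
  (∀ b0 b1 b2 b3, ok4 σ b0 b1 b2 b3 = true) ∧ (∀ b0 b1 b2 b3 b4, ok5 σ b0 b1 b2 b3 b4 = true)

/-- a vertex pattern (lc, rc, lx, rx, ly, ry, rk, swx, swy) passes -/
def vp (σ : Bool → Bool → Bool → Bool) (lc : Bool) (rc : ℕ) (lx : Bool) (rx : ℕ) (ly : Bool) (ry rk : ℕ)
    (swx swy : Bool) : Bool :=
  let c := (lc, 3 * rc + 1)
  let x := (lx, 3 * rx + 1)
  let y := (ly, 3 * ry + 1)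
  let r1 := (lx, 3 * rx + (if swx then 2 else 0))
  let r2 := (lx, 3 * rx + (if swx then 0 else 2))
  let r3 := (ly, 3 * ry + (if swy then 2 else 0))
  let r4 := (ly, 3 * ry + (if swy then 0 else 2))
  let z := (false, 3 * rk + 1)
  let w := (true, 3 * rk + 1)
  sg σ c r1 r2 && sg σ c r1 r3 && sg σ c r1 r4 && sg σ c r2 r3 && sg σ c r2 r4 && sg σ c r3 r4 &&
  sg σ c r1 x && sg σ c x r2 && sg σ c r3 y && sg σ c y r4 &&
  sg σ c z r2 && sg σ c r3 z && sg σ c w r2 && sg σ c r3 w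

/-- one of the 12 vertex patterns passes -/
def patB (σ : Bool → Bool → Bool → Bool) : Bool :=
  vp σ false 2 true 0 false 1 3 true true || vp σ false 1 false 2 true 3 0 true true ||
  vp σ true 1 false 3 true 2 0 false false || vp σ false 2 false 1 true 0 3 false false ||
  vp σ false 1 true 3 false 2 0 false false || vp σ true 2 true 1 false 0 3 false false ||
  vp σ true 2 false 0 true 1 3 true true || vp σ true 1 true 2 false 3 0 true true ||
  vp σ true 2 true 1 false 0 3 false true || vp σ false 2 false 1 true 0 3 false true ||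
  vp σ true 1 true 2 false 3 0 true false || vp σ true 1 false 2 true 3 0 true false

/-- soundness of the vertex patterns -/
def S_patB : Prop := ∀ (P : Bool → ℕ → Pt) (σ : Bool → Bool → Bool → Bool), Hom 12 P σ → patB σ = true → PatN 12 P

/-- the finite check -/
def S_dec : Prop := ∀ σ : Bool → Bool → Bool → Bool,
  (∀ b0 b1 b2 b3, ok4 σ b0 b1 b2 b3 = true) → (∀ b0 b1 b2 b3 b4, ok5 σ b0 b1 b2 b3 b4 = true) →
  patB σ = true ∨ (∃ a, ∀ b1 b2 b3, σ b1 b2 b3 = a) ∨ ∃ a b c d, σ = blk a b c d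

end Pool.Agent.W323.PT
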